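import Pool.Agent.H304R2.EC.EProd
import Pool.Agent.H304R2.EC.Points
import Pool.Agent.H304R2.EC.Pair
import Pool.Agent.H304R2.EC.LogDer
import Pool.Agent.H385R2.EcD4
import Pool.Agent.H385R2.EcD1
import Pool.Agent.H471R3.GJ.Hecke

set_option autoImplicit false

/-!
# The congruent number curves as Hecke series
-/

namespace Pool.Agent.H128R3.EC

open Complex Filter Topology MeasureTheory
open Pool.Agent.H304R2.EC
open Pool.Agent.H471R3.GJ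

/-- The theta function on the imaginary axis. -/
noncomputable def ph (D : ℕ) (ψ : DirichletCharacter ℂ D) (y : ℝ) : ℝ :=
  (TH D ψ (y / (Real.sqrt 8 * D))).re

/-- The data. -/
noncomputable def hk (D : ℕ) (ψ : DirichletCharacter ℂ D) (e : ℝ) : Hk where
  φ := ph D ψ
  b m := (ψ (m : ZMod D) * (an m : ℂ)).re
  k := 2
  h := 2 * (Real.sqrt 8 * D)
  p := 1
  β := 3
  B := 9
  ε := e

/-- The hypotheses on the character. -/
structure Jac (D : ℕ) (ψ : DirichletCharacter ℂ D) : Prop where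
  odd : Odd D
  prim : ψ.IsPrimitive
  jac : ∀ n : ℕ, ψ (n : ZMod D) = (jacobiSym n D : ℂ)

lemma Jac.ne {D : ℕ} {ψ : DirichletCharacter ℂ D} (h : Jac D ψ) : D ≠ 0 := by
  rintro rfl
  exact absurd h.odd (by decide)

lemma Jac.pos {D : ℕ} {ψ : DirichletCharacter ℂ D} (h : Jac D ψ) : (0 : ℝ) < D := by
  exact_mod_cast Nat.pos_of_ne_zero h.ne

lemma Jac.sc {D : ℕ} {ψ : DirichletCharacter ℂ D} (h : Jac D ψ) : 0 < Real.sqrt 8 * (D : ℝ) := by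
  have := h.pos
  positivity

lemma TH_star {D : ℕ} {ψ : DirichletCharacter ℂ D} (h : Jac D ψ) (y : ℝ) :
    (starRingEnd ℂ) (TH D ψ y) = TH D ψ y := by
  unfold TH
  rw [Complex.conj_tsum]
  refine tsum_congr (fun n => ?_)
  rw [map_mul, map_mul, Complex.conj_ofReal, h.jac n]
  simp

lemma TH_re {D : ℕ} {ψ : DirichletCharacter ℂ D} (h : Jac D ψ) (y : ℝ) :
    (((TH D ψ y).re : ℝ) : ℂ) = TH D ψ y := by
  exact Complex.conj_eq_iff_re.1 (TH_star h y)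

lemma TH_inv {D : ℕ} {ψ : DirichletCharacter ℂ D} (h : Jac D ψ) (y : ℝ) :
    TH D ψ⁻¹ y = TH D ψ y := by
  rw [TH_conj, TH_star h]

lemma ph_coe {D : ℕ} {ψ : DirichletCharacter ℂ D} (h : Jac D ψ) (y : ℝ) :
    ((ph D ψ y : ℝ) : ℂ) = TH D ψ (y / (Real.sqrt 8 * D)) := TH_re h _

/-- The completed function. -/
lemma mellin_ph {D : ℕ} {ψ : DirichletCharacter ℂ D} (h : Jac D ψ) (s : ℂ) :
    mellin (fun y : ℝ => ((ph D ψ y : ℝ) : ℂ)) s = LL D ψ (s - 1 / 2) := by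
  unfold LL
  rw [sub_add_cancel]
  congr 1
  funext y
  exact ph_coe h y

lemma mellin_ph' {D : ℕ} {ψ : DirichletCharacter ℂ D} (h : Jac D ψ) (s : ℂ) (hs : 0 < s.re) :
    mellin (fun y : ℝ => ((ph D ψ y : ℝ) : ℂ)) s =
      ((Real.sqrt 8 * D / Real.pi : ℝ) : ℂ) ^ s * Complex.Gamma s * FF D ψ (s - 1 / 2) := by
  have i2 : NeZero D := ⟨h.ne⟩
  rw [mellin_ph h, FF_eq]
  have hG : Complex.Gamma (s - 1 / 2 + 1 / 2) ≠ 0 := by
    rw [sub_add_cancel]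
    exact Complex.Gamma_ne_zero_of_re_pos hs
  have hb : ((Real.sqrt 8 * D / Real.pi : ℝ) : ℂ) ≠ 0 := by
    exact_mod_cast (div_pos h.sc Real.pi_pos).ne'
  rw [Complex.cpow_neg]
  have hc : ((Real.sqrt 8 * D / Real.pi : ℝ) : ℂ) ^ (s - 1 / 2 + 1 / 2) ≠ 0 := by
    rw [Ne, cpow_eq_zero_iff]
    exact fun h => hb h.1
  rw [sub_add_cancel] at hG hc ⊢
  field_simp

lemma exists_ne {D : ℕ} {ψ : DirichletCharacter ℂ D} (h : Jac D ψ) : ∃ y : ℝ, 0 < y ∧ ph D ψ y ≠ 0 := by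
  have i2 : NeZero D := ⟨h.ne⟩
  by_contra hcon
  push Not at hcon
  have h1 := mellin_ph' h 2 (by norm_num)
  have h2 : mellin (fun y : ℝ => ((ph D ψ y : ℝ) : ℂ)) 2 = 0 := by
    unfold mellin
    rw [setIntegral_congr_fun (g := fun _ => (0 : ℂ)) measurableSet_Ioi ?_]
    · simp
    · intro y hy
      simp only
      rw [hcon y hy]
      simp
  rw [h2] at h1
  have h3 : FF D ψ (2 - 1 / 2) ≠ 0 := FF_ne_zero D ψ _ (by norm_num)
  have hG : Complex.Gamma 2 ≠ 0 := Complex.Gamma_ne_zero_of_re_pos (by norm_num)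
  have hb : ((Real.sqrt 8 * D / Real.pi : ℝ) : ℂ) ≠ 0 := by
    exact_mod_cast (div_pos h.sc Real.pi_pos).ne'
  have hc : ((Real.sqrt 8 * D / Real.pi : ℝ) : ℂ) ^ (2 : ℂ) ≠ 0 := by
    rw [Ne, cpow_eq_zero_iff]
    exact fun h => hb h.1
  exact (mul_ne_zero (mul_ne_zero hc hG) h3) h1.symm

/-- The inversion formula with a real sign. -/
lemma ph_inv {D : ℕ} {ψ : DirichletCharacter ℂ D} (h : Jac D ψ) :
    ∃ e : ℝ, (e = 1 ∨ e = -1) ∧ ∀ y : ℝ, 0 < y → ph D ψ (1 / y) = e * y ^ (2 : ℝ) * ph D ψ y := by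
  have i2 : NeZero D := ⟨h.ne⟩
  obtain ⟨w, hw, hfe⟩ := theta_fe D h.odd ψ h.prim
  have h1 : ∀ y : ℝ, 0 < y → ((ph D ψ (1 / y) : ℝ) : ℂ) = w * (y : ℂ) ^ 2 * ((ph D ψ y : ℝ) : ℂ) := by
    intro y hy
    rw [ph_coe h, ph_coe h, ← TH_inv h (y / (Real.sqrt 8 * D)), ← hfe y hy]
    congr 1
    have := h.sc
    field_simp
  obtain ⟨y0, hy0, hne⟩ := exists_ne h
  have h2 := h1 y0 hy0
  have hwr : w = ((ph D ψ (1 / y0) / (y0 ^ 2 * ph D ψ y0) : ℝ) : ℂ) := by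
    have hy0c : (y0 : ℂ) ≠ 0 := by exact_mod_cast hy0.ne'
    have hnec : ((ph D ψ y0 : ℝ) : ℂ) ≠ 0 := by exact_mod_cast hne
    push_cast
    push_cast at h2
    rw [h2]
    field_simp
  set e : ℝ := ph D ψ (1 / y0) / (y0 ^ 2 * ph D ψ y0) with he
  refine ⟨e, ?_, ?_⟩
  · rw [hwr, Complex.norm_real, Real.norm_eq_abs] at hw
    exact (abs_eq (by norm_num)).1 hw
  · intro y hy
    have h3 := h1 y hy
    rw [hwr] at h3
    have h4 : (((e * y ^ 2 * ph D ψ y : ℝ)) : ℂ) = (e : ℂ) * (y : ℂ) ^ 2 * ((ph D ψ y : ℝ) : ℂ) := by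
      push_cast
      rfl
    rw [← h4] at h3
    have h5 : ph D ψ (1 / y) = e * y ^ 2 * ph D ψ y := by exact_mod_cast h3
    rw [h5]
    norm_num

lemma an_bd (m : ℕ) (hm : 1 ≤ m) : |(an m : ℝ)| ≤ 9 * (m : ℝ) ^ (3 : ℝ) := by
  have h1 := an_crude m
  have hm1 : (1 : ℝ) ≤ m := by exact_mod_cast hm
  have h2 : (2 * (m : ℝ) + 1) ^ 2 ≤ (3 * (m : ℝ)) ^ 2 := by
    apply pow_le_pow_left₀ (by positivity)
    linarith
  calc |(an m : ℝ)| ≤ (2 * (m : ℝ) + 1) ^ 2 * m := h1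
    _ ≤ (3 * (m : ℝ)) ^ 2 * m := mul_le_mul_of_nonneg_right h2 (by positivity)
    _ = 9 * (m : ℝ) ^ (3 : ℕ) := by ring
    _ = 9 * (m : ℝ) ^ (3 : ℝ) := by norm_cast

theorem isHk {D : ℕ} {ψ : DirichletCharacter ℂ D} (h : Jac D ψ) : ∃ e : ℝ, IsHk (hk D ψ e) := by
  obtain ⟨e, he, hinv⟩ := ph_inv h
  refine ⟨e, by show (0 : ℝ) < 2; norm_num, by
    show (0 : ℝ) < 2 * (Real.sqrt 8 * D)
    have := h.sc
    positivity, le_refl 1,
    by show (0 : ℝ) ≤ 3; norm_num, by show (1 : ℝ) ≤ 9; norm_num, ?_, ?_, ?_, he, hinv⟩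
  · show (ψ ((1 : ℕ) : ZMod D) * (an 1 : ℂ)).re = 1
    rw [an_one]
    simp
  · intro m hm
    show |(ψ (m : ZMod D) * (an m : ℂ)).re| ≤ 9 * (m : ℝ) ^ (3 : ℝ)
    refine (Complex.abs_re_le_norm _).trans ((cf_norm_le D ψ m).trans (an_bd m hm))
  · intro y hy
    have hy' : 0 < y / (Real.sqrt 8 * D) := div_pos hy h.sc
    have h1 := Complex.hasSum_re (TH_hasSum D ψ hy')
    have h2 := (hasSum_nat_add_iff' 1).2 h1
    simp only [Finset.range_one, Finset.sum_singleton, cf_zero, zero_mul, Complex.zero_re,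
      sub_zero] at h2
    refine h2.congr_fun ?_
    intro m
    rw [Complex.re_mul_ofReal]
    show (ψ ((m + 1 : ℕ) : ZMod D) * (an (m + 1) : ℂ)).re *
      Real.exp (-(2 * Real.pi * ((m + 1 : ℕ) : ℝ) ^ 1 * y / (2 * (Real.sqrt 8 * D)))) = _
    unfold cf
    congr 2
    have := h.sc
    rw [pow_one]
    field_simp

end Pool.Agent.H128R3.EC
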