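import Pool.Agent.H128R3.EC.CN

set_option autoImplicit false

/-!
# The Euler product of the congruent number curves
-/

namespace Pool.Agent.H128R3.EC

open Complex Filter Topology MeasureTheory
open Pool.Agent.H304R2.EC

lemma hasProd_prime {D : ℕ} {ψ : DirichletCharacter ℂ D} (h : Jac D ψ) (s : ℂ) (hs : 3 / 2 < s.re) :
    FF D ψ (s - 1 / 2) = ∏' p : {p : ℕ // p.Prime ∧ ¬ p ∣ 2 * D},
      (1 - (H385.aD D p : ℂ) * (p : ℂ) ^ (-s) + (p : ℂ) ^ (1 - 2 * s))⁻¹ := by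
  have i2 : NeZero D := ⟨h.ne⟩
  have hs' : 1 < (s - 1 / 2).re := by
    rw [Complex.sub_re]
    norm_num
    linarith
  rw [FF_prod D ψ _ hs']
  set g : {p : ℕ // p.Prime ∧ ¬ p ∣ 2 * D} → {p : ℕ // p.Prime ∧ p ≠ 2} := fun p =>
    ⟨p.1, p.2.1, fun h2 => p.2.2 (by rw [h2]; exact dvd_mul_right 2 D)⟩ with hg
  have hginj : Function.Injective g := by
    intro a b hab
    apply Subtype.ext
    have := congrArg (fun x : {p : ℕ // p.Prime ∧ p ≠ 2} => (x : ℕ)) hab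
    simpa [hg] using this
  have hz : ∀ p : ℕ, p.Prime → p ∣ D → ψ ((p : ℕ) : ZMod D) = 0 := by
    intro p hp hpD
    apply MulChar.map_nonunit
    rw [ZMod.isUnit_iff_coprime, hp.coprime_iff_not_dvd]
    exact fun h => h hpD
  have hsupp : Function.mulSupport (fun p : {p : ℕ // p.Prime ∧ p ≠ 2} =>
      (1 - ψ ((p : ℕ) : ZMod D) * (an p : ℂ) * ((p : ℕ) : ℂ) ^ (-(s - 1 / 2 + 1 / 2)) +
        ψ ((p : ℕ) : ZMod D) ^ 2 * ((p : ℕ) : ℂ) ^ (-2 * (s - 1 / 2)))⁻¹) ⊆ Set.range g := by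
    intro p hp
    by_cases hpD : (p : ℕ) ∣ D
    · exfalso
      apply hp
      simp only
      rw [hz p p.2.1 hpD]
      simp
    · refine ⟨⟨p.1, p.2.1, ?_⟩, rfl⟩
      intro h2
      rcases (Nat.Prime.dvd_mul p.2.1).mp h2 with h3 | h3
      · exact p.2.2 ((Nat.prime_dvd_prime_iff_eq p.2.1 Nat.prime_two).mp h3)
      · exact hpD h3
  rw [← hginj.tprod_eq hsupp]
  refine tprod_congr fun p => ?_
  obtain ⟨p, hp, hp2D⟩ := p
  have h2 : p ≠ 2 := fun h2 => hp2D (by rw [h2]; exact dvd_mul_right 2 D)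
  have hpD : ¬ p ∣ D := fun h3 => hp2D (h3.mul_left 2)
  simp only [hg]
  change (1 - ψ ((p : ℕ) : ZMod D) * (an p : ℂ) * ((p : ℕ) : ℂ) ^ (-(s - 1 / 2 + 1 / 2)) +
        ψ ((p : ℕ) : ZMod D) ^ 2 * ((p : ℕ) : ℂ) ^ (-2 * (s - 1 / 2)))⁻¹ = _
  rw [h.jac, H385.aD_jac D p h.odd hp h2 hpD, aE_eq p hp h2]
  have hj : ((jacobiSym (p : ℕ) D : ℤ) : ℂ) ^ 2 = 1 := by
    have hcop : Int.gcd ((p : ℕ) : ℤ) (D : ℤ) = 1 := by
      rw [Int.gcd_natCast_natCast]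
      exact (hp.coprime_iff_not_dvd).mpr hpD
    rcases jacobiSym.eq_one_or_neg_one hcop with h | h
    · rw [h]; simp
    · rw [h]; simp
  rw [hj, one_mul, sub_add_cancel]
  have e1 : -2 * (s - 1 / 2) = 1 - 2 * s := by ring
  rw [e1]
  push_cast
  ring_nf

theorem mellin_prod {D : ℕ} {ψ : DirichletCharacter ℂ D} (h : Jac D ψ) (s : ℂ) (hs : 3 / 2 < s.re) :
    mellin (fun y : ℝ => ((ph D ψ y : ℝ) : ℂ)) s =
      ((Real.sqrt 32 * D / (2 * Real.pi) : ℝ) : ℂ) ^ s * Complex.Gamma s *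
      ∏' p : {p : ℕ // p.Prime ∧ ¬ p ∣ 2 * D},
        (1 - (H385.aD D p : ℂ) * (p : ℂ) ^ (-s) + (p : ℂ) ^ (1 - 2 * s))⁻¹ := by
  rw [mellin_ph' h s (by linarith), hasProd_prime h s hs]
  have h32 : Real.sqrt 32 = 2 * Real.sqrt 8 := by
    rw [show (32 : ℝ) = 2 ^ 2 * 8 by norm_num, Real.sqrt_mul (by norm_num), Real.sqrt_sq (by norm_num)]
  have : Real.sqrt 8 * D / Real.pi = Real.sqrt 32 * D / (2 * Real.pi) := by
    rw [h32]
    have := Real.pi_pos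
    field_simp
  rw [this]

end Pool.Agent.H128R3.EC
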