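import Pool.Agent.H471R3.GJ.Cusp
import Pool.Agent.H471R3.GJ.HDir
import Pool.Agent.H128R3.GJC

set_option autoImplicit false

/-!
# Weight two forms of level `N` with real coefficients and a Fricke sign as Hecke series
-/

namespace Pool.Agent.H128R3.EC

open Complex Filter Topology UpperHalfPlane MatrixGroups ModularForm CongruenceSubgroup
open Pool.Agent.H471R3.GJ

/-- `f` is normalised, has real Fourier coefficients and is an eigenfunction of the Fricke
involution. -/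
structure IsNorm (N : ℕ) (f : CuspForm (Gamma0 N : Subgroup (GL (Fin 2) ℝ)) 2) (ε : ℝ) : Prop where
  one : (qExpansion 1 f).coeff 1 = 1
  real : ∀ n, ((qExpansion 1 f).coeff n).im = 0
  sign : ε = 1 ∨ ε = -1
  fricke : ∀ τ τ' : ℍ, (τ' : ℂ) * ((N : ℂ) * (τ : ℂ)) = -1 →
    f τ' = -(ε : ℂ) * (N : ℂ) * (τ : ℂ) ^ 2 * f τ

/-- The data. -/
noncomputable def nfHk (N : ℕ) (f : CuspForm (Gamma0 N : Subgroup (GL (Fin 2) ℝ)) 2) (B ε : ℝ) : Hk where
  φ y := (f (ofComplex (Complex.I * ((y / Real.sqrt N : ℝ) : ℂ)))).re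
  b m := ((qExpansion 1 f).coeff m).re
  k := 2
  h := Real.sqrt N
  p := 1
  β := 1
  B := B
  ε := ε

section

variable {N : ℕ} [NeZero N] (f : CuspForm (Gamma0 N : Subgroup (GL (Fin 2) ℝ)) 2)

theorem one_mem0 : (1 : ℝ) ∈ (Gamma0 N : Subgroup (GL (Fin 2) ℝ)).strictPeriods := by
  rw [strictPeriods_Gamma0]
  exact AddSubgroup.mem_zmultiples 1

theorem sum_iy0 (y : ℝ) (hy : 0 < y) :
    HasSum (fun m : ℕ => (qExpansion 1 f).coeff m *
      ((Real.exp (-(2 * Real.pi * (m : ℝ) * y)) : ℝ) : ℂ)) (f (ofComplex (Complex.I * y))) := by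
  have h := ModularForm.hasSum_qExpansion (Γ := (Gamma0 N : Subgroup (GL (Fin 2) ℝ))) (k := 2) f one_pos
    one_mem0 (ofComplex (Complex.I * y))
  have him : 0 < (Complex.I * (y : ℂ)).im := by simpa using hy
  convert h using 2 with m
  congr 1
  rw [ofComplex_apply_of_im_pos him]
  unfold Function.Periodic.qParam
  rw [← Complex.exp_nat_mul]
  simp only
  push_cast
  congr 1
  have hI : Complex.I ^ 2 = -1 := Complex.I_sq
  linear_combination (-(2 * Real.pi * m * y) : ℂ) * hI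

theorem coeff_zero0 : (qExpansion 1 f).coeff 0 = 0 := by
  rw [CuspFormClass.qExpansion_coeff_zero (Γ := (Gamma0 N : Subgroup (GL (Fin 2) ℝ))) (k := 2) f one_pos
    one_mem0]

theorem coeff_bound0 : ∃ B : ℝ, 1 ≤ B ∧ ∀ m : ℕ, 1 ≤ m →
    ‖(qExpansion 1 f).coeff m‖ ≤ B * (m : ℝ) ^ (1 : ℝ) := by
  have h := CuspFormClass.qExpansion_isBigO (k := 2) (Γ := (Gamma0 N : Subgroup (GL (Fin 2) ℝ))) f
  rw [strictWidthInfty_Gamma0] at h
  have e2 : (((2 : ℤ) : ℝ) / 2) = 1 := by norm_num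
  rw [e2] at h
  obtain ⟨C, hC⟩ := h.bound
  obtain ⟨M, hM⟩ := eventually_atTop.1 hC
  set S : ℝ := ∑ m ∈ Finset.range M, ‖(qExpansion 1 f).coeff m‖ / (m : ℝ) ^ (1 : ℝ) with hS
  have hS0 : 0 ≤ S := Finset.sum_nonneg fun m _ => by positivity
  refine ⟨1 + |C| + S, by have := abs_nonneg C; linarith, ?_⟩
  intro m hm
  have hm0 : (0 : ℝ) < m := by exact_mod_cast hm
  have hp : 0 < (m : ℝ) ^ (1 : ℝ) := Real.rpow_pos_of_pos hm0 _
  rcases lt_or_ge m M with hlt | hge
  · have h1 : ‖(qExpansion 1 f).coeff m‖ / (m : ℝ) ^ (1 : ℝ) ≤ S :=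
      Finset.single_le_sum (f := fun m : ℕ => ‖(qExpansion 1 f).coeff m‖ / (m : ℝ) ^ (1 : ℝ))
        (fun i _ => by positivity) (Finset.mem_range.2 hlt)
    rw [div_le_iff₀ hp] at h1
    refine h1.trans ?_
    gcongr
    have := abs_nonneg C
    linarith
  · have h1 := hM m hge
    rw [Real.norm_eq_abs, abs_of_pos hp] at h1
    refine h1.trans ?_
    gcongr
    have := le_abs_self C
    linarith

theorem nf_isHk {ε : ℝ} (hf : IsNorm N f ε) : ∃ B : ℝ, IsHk (nfHk N f B ε) := by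
  obtain ⟨B, hB1, hB⟩ := coeff_bound0 f
  have hN : (0 : ℝ) < N := by exact_mod_cast Nat.pos_of_ne_zero (NeZero.ne N)
  have hsN : 0 < Real.sqrt N := Real.sqrt_pos.2 hN
  refine ⟨B, by show (0 : ℝ) < 2; norm_num, hsN, le_refl 1, by show (0 : ℝ) ≤ 1; norm_num, hB1, ?_, ?_, ?_,
    hf.sign, ?_⟩
  · show ((qExpansion 1 f).coeff 1).re = 1
    rw [hf.one]
    simp
  · intro m hm
    exact (Complex.abs_re_le_norm _).trans (hB m hm)
  · intro y hy
    have hy' : 0 < y / Real.sqrt N := div_pos hy hsN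
    have h := Complex.hasSum_re (sum_iy0 f (y / Real.sqrt N) hy')
    have h2 := (hasSum_nat_add_iff' 1).2 h
    simp only [Finset.range_one, Finset.sum_singleton, coeff_zero0, zero_mul, Complex.zero_re,
      sub_zero] at h2
    refine h2.congr_fun ?_
    intro m
    rw [Complex.re_mul_ofReal]
    show ((qExpansion 1 f).coeff (m + 1)).re *
      Real.exp (-(2 * Real.pi * ((m + 1 : ℕ) : ℝ) ^ 1 * y / Real.sqrt N)) = _
    rw [pow_one, mul_div_assoc]
  · intro y hy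
    show (f (ofComplex (Complex.I * ((1 / y / Real.sqrt N : ℝ) : ℂ)))).re =
      ε * y ^ (2 : ℝ) * (f (ofComplex (Complex.I * ((y / Real.sqrt N : ℝ) : ℂ)))).re
    have hy1 : 0 < y / Real.sqrt N := div_pos hy hsN
    have hy2 : 0 < 1 / y / Real.sqrt N := by positivity
    have him1 : 0 < (Complex.I * ((y / Real.sqrt N : ℝ) : ℂ)).im := by
      rw [Complex.I_mul_im, Complex.ofReal_re]
      exact hy1
    have him2 : 0 < (Complex.I * ((1 / y / Real.sqrt N : ℝ) : ℂ)).im := by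
      rw [Complex.I_mul_im, Complex.ofReal_re]
      exact hy2
    have hsq : (Real.sqrt N : ℂ) ^ 2 = N := by
      have : Real.sqrt N ^ 2 = N := Real.sq_sqrt hN.le
      exact_mod_cast this
    have hsqne : (Real.sqrt N : ℂ) ≠ 0 := by exact_mod_cast hsN.ne'
    have hyc : (y : ℂ) ≠ 0 := by exact_mod_cast hy.ne'
    have h1 := hf.fricke (ofComplex (Complex.I * ((y / Real.sqrt N : ℝ) : ℂ)))
      (ofComplex (Complex.I * ((1 / y / Real.sqrt N : ℝ) : ℂ))) (by
        rw [ofComplex_apply_of_im_pos him1, ofComplex_apply_of_im_pos him2]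
        simp only
        push_cast
        rw [← hsq]
        have hI : Complex.I ^ 2 = -1 := Complex.I_sq
        field_simp
        exact hI)
    rw [h1]
    rw [ofComplex_apply_of_im_pos him1]
    have e1 : -(ε : ℂ) * (N : ℂ) * (Complex.I * ((y / Real.sqrt N : ℝ) : ℂ)) ^ 2 =
        ((ε * y ^ (2 : ℝ) : ℝ) : ℂ) := by
      have e3 : (y : ℝ) ^ (2 : ℝ) = y ^ (2 : ℕ) := by norm_cast
      rw [e3]
      push_cast
      rw [mul_pow, Complex.I_sq, div_pow, hsq]
      have hNc : (N : ℂ) ≠ 0 := by exact_mod_cast NeZero.ne N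
      field_simp
    simp only
    rw [e1, Complex.re_ofReal_mul]

/-- The Dirichlet series. -/
theorem nf_dir {B ε : ℝ} (hf : IsNorm N f ε) (h : IsHk (nfHk N f B ε)) (s : ℂ) (hs : 2 < s.re) :
    mellin (fun y : ℝ => (((nfHk N f B ε).φ y : ℝ) : ℂ)) s =
      ((Real.sqrt N / (2 * Real.pi) : ℝ) : ℂ) ^ s * Complex.Gamma s *
        ∑' n : ℕ, (qExpansion 1 f).coeff (n + 1) * ((n + 1 : ℕ) : ℂ) ^ (-s) := by
  have h1 := dir (nfHk N f B ε) h s (by linarith) (by
    show (1 : ℝ) + 1 < ((1 : ℕ) : ℝ) * s.re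
    push_cast
    linarith)
  rw [h1]
  show ((Real.sqrt N / (2 * Real.pi) : ℝ) : ℂ) ^ s * Complex.Gamma s *
    ∑' m : ℕ, ((((qExpansion 1 f).coeff (m + 1)).re : ℝ) : ℂ) * ((m + 1 : ℕ) : ℂ) ^ (-((1 : ℕ) : ℂ) * s) = _
  congr 1
  refine tsum_congr fun m => ?_
  have e1 : ((((qExpansion 1 f).coeff (m + 1)).re : ℝ) : ℂ) = (qExpansion 1 f).coeff (m + 1) := by
    apply Complex.ext
    · simp
    · rw [Complex.ofReal_im, hf.real]
  rw [e1]
  congr 2
  push_cast
  ring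

end

end Pool.Agent.H128R3.EC
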